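import Pool.Agent.H37.CPX.Targets
import Pool.Agent.H37.CP.Targets

/-!
# Board cpx_modules (MP_c62aed_lc), module RMX: real monotone circuits are dags of triangles
-/

set_option autoImplicit false

namespace Pool.Agent.H39.CPX

open Finset Pool.Agent.H37.CPX
open Pool.Agent.H1.LP (Clause)
open Pool.Agent.H37.CP (RCircuit RGate rval rdep)

theorem pf_RMX (hD : S_DAG) (hQ : Pool.Agent.H37.CP.S_REQ) : S_RMX := by
  intro N m k w0 P z lam n s FY FX X0 Ci hnum hC hFY hFX hX0
  have h := hD N m k w0 P z lam s (Fin (Ci.out + 1)) (fun v x => rval Ci.gate (FX x) v.1)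
    (fun v y => rval Ci.gate (FY y) v.1) (fun v => rdep Ci.gate v.1) X0
    ⟨Ci.out, Nat.lt_succ_self _⟩ hnum ?_ ?_ hX0
  · rw [Fintype.card_fin] at h
    exact h
  · intro v
    obtain ⟨h1, h2, h3, _⟩ := hQ n Ci.gate v.1
    cases hg : Ci.gate v.1 with
    | cst r =>
      obtain ⟨j, _⟩ := hC ∅
      refine Or.inl ⟨j, fun x y hxy => ?_⟩
      have h4 := (h1 r hg).1
      have h5 : rval Ci.gate (FY y) v.1 < rval Ci.gate (FX x) v.1 := hxy
      rw [h4, h4] at h5
      exact absurd h5 (lt_irrefl _)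
    | inp C =>
      obtain ⟨j, hj⟩ := hC C
      refine Or.inl ⟨j, fun x y hxy => ?_⟩
      have h4 := (h2 C hg).1
      have h5 : rval Ci.gate (FY y) v.1 < rval Ci.gate (FX x) v.1 := hxy
      have h6 : C ∉ FY y := by
        intro hc
        rw [(h4 (FY y)).1 hc] at h5
        by_cases hc' : C ∈ FX x
        · rw [(h4 (FX x)).1 hc'] at h5
          linarith
        · rw [(h4 (FX x)).2 hc'] at h5
          linarith
      have h7 : C ∈ FX x := by
        by_contra hc
        rw [(h4 (FX x)).2 hc, (h4 (FY y)).2 h6] at h5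
        linarith
      exact hj x h7 y h6
    | op f hf j l =>
      have h4 := h3 f hf j l hg
      have hj : j.1 < Ci.out + 1 := lt_trans j.2 v.2
      have hl : l.1 < Ci.out + 1 := lt_trans l.2 v.2
      refine Or.inr ⟨⟨j.1, hj⟩, ⟨l.1, hl⟩, ?_, ?_, fun x y hxy => ?_⟩
      · show rdep Ci.gate j.1 < rdep Ci.gate v.1
        rw [h4.2]
        exact Nat.lt_succ_of_le (le_max_left _ _)
      · show rdep Ci.gate l.1 < rdep Ci.gate v.1
        rw [h4.2]
        exact Nat.lt_succ_of_le (le_max_right _ _)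
      · by_contra hc
        rw [not_or, not_lt, not_lt] at hc
        have h5 : rval Ci.gate (FY y) v.1 < rval Ci.gate (FX x) v.1 := hxy
        have h6 : rval Ci.gate (FX x) j.1 ≤ rval Ci.gate (FY y) j.1 := hc.1
        have h7 : rval Ci.gate (FX x) l.1 ≤ rval Ci.gate (FY y) l.1 := hc.2
        rw [h4.1, h4.1] at h5
        have h8 := hf (rval Ci.gate (FX x) j.1) (rval Ci.gate (FY y) j.1)
          (rval Ci.gate (FX x) l.1) (rval Ci.gate (FY y) l.1) h6 h7
        exact absurd h5 (not_lt.2 h8)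
  · intro x hx y
    show rval Ci.gate (FY y) Ci.out < rval Ci.gate (FX x) Ci.out
    exact lt_of_le_of_lt (hFY y) (hFX x hx)

end Pool.Agent.H39.CPX
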